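import Pool.Agent.Helper95.Lin.GoalsA
import Pool.Agent.Helper95.Lin.GoalsF

/-! # Packet REC: the recursion for commutator words near the identity -/

open Filter Topology

namespace Pool.Agent.Helper90.Lin

open Pool.Agent.Helper95.Lin

variable {p : ℕ}

/-- `x ↦ ad x` as a continuous linear map. -/
noncomputable def adL (B : Br p) : (Fin p → ℝ) →ₗ[ℝ] Endo p :=
  (LinearMap.toContinuousLinearMap :
    ((Fin p → ℝ) →ₗ[ℝ] (Fin p → ℝ)) ≃ₗ[ℝ] Endo p).toLinearMap ∘ₗ B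

theorem adL_apply (B : Br p) (x : Fin p → ℝ) : adL B x = adB B x := rfl

theorem adB_apply (B : Br p) (x y : Fin p → ℝ) : adB B x y = B x y := rfl

theorem exists_beta (B : Br p) : ∃ β : ℝ, 1 ≤ β ∧ (∀ x y, ‖B x y‖ ≤ β * ‖x‖ * ‖y‖) ∧
    ∀ x, ‖adB B x‖ ≤ β * ‖x‖ := by
  set A : (Fin p → ℝ) →L[ℝ] Endo p := LinearMap.toContinuousLinearMap (adL B) with hA
  have h1 : ∀ x, ‖adB B x‖ ≤ (1 + ‖A‖) * ‖x‖ := by
    intro x
    have : ‖A x‖ ≤ ‖A‖ * ‖x‖ := A.le_opNorm x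
    have h2 : A x = adB B x := rfl
    rw [h2] at this
    nlinarith [norm_nonneg x]
  refine ⟨1 + ‖A‖, by linarith [norm_nonneg A], fun x y => ?_, h1⟩
  have := (adB B x).le_opNorm y
  rw [adB_apply] at this
  exact this.trans (mul_le_mul_of_nonneg_right (h1 x) (norm_nonneg y))

theorem exists_C1 {B : Br p} (hB : SLie p B) : ∃ C : ℝ, 0 < C ∧ ∀ u, ‖u‖ ≤ C * ‖adB B u‖ := by
  have hk : LinearMap.ker (adL B) = ⊥ := by
    rw [LinearMap.ker_eq_bot']
    intro x hx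
    refine hB.center x fun y => ?_
    have : adB B x = 0 := hx
    rw [← adB_apply, this]
    rfl
  obtain ⟨K, hK, hA⟩ := (adL B).exists_antilipschitzWith hk
  refine ⟨K, by exact_mod_cast hK, fun u => ?_⟩
  have := hA.le_mul_dist u 0
  rw [dist_zero_right, map_zero, dist_zero_right] at this
  exact this

/-- The linear map `t ↦ ∑ t_ij B(x_i, x_j)`. -/
noncomputable def TT (B : Br p) (x : Fin p → Fin p → ℝ) : (Fin p × Fin p → ℝ) →ₗ[ℝ] (Fin p → ℝ) :=
  Fintype.linearCombination ℝ (fun q : Fin p × Fin p => B (x q.1) (x q.2))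

theorem TT_apply (B : Br p) (x : Fin p → Fin p → ℝ) (t : Fin p × Fin p → ℝ) :
    TT B x t = ∑ q, t q • B (x q.1) (x q.2) := rfl

theorem B_expand (B : Br p) (x y : Fin p → ℝ) :
    B x y = ∑ q : Fin p × Fin p, (x q.1 * y q.2) •
      B (Pi.single q.1 (1 : ℝ)) (Pi.single q.2 (1 : ℝ)) := by
  have hx : x = ∑ i, x i • (Pi.single i (1 : ℝ) : Fin p → ℝ) := pi_eq_sum_univ' x
  have hy : y = ∑ i, y i • (Pi.single i (1 : ℝ) : Fin p → ℝ) := pi_eq_sum_univ' y
  conv_lhs => rw [hx, hy]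
  rw [Fintype.sum_prod_type]
  simp only [map_sum, LinearMap.sum_apply, map_smul, LinearMap.smul_apply, Finset.smul_sum,
    smul_smul]
  rw [Finset.sum_comm]
  exact Finset.sum_congr rfl fun i _ => Finset.sum_congr rfl fun j _ => by rw [mul_comm]

theorem TT_surj {B : Br p} (hB : SLie p B) :
    Function.Surjective (TT B (fun k => Pi.single k (1 : ℝ))) := by
  rw [← LinearMap.range_eq_top, eq_top_iff, ← hB.perfect, Submodule.span_le]
  rintro z ⟨x, y, rfl⟩
  refine ⟨fun q => x q.1 * y q.2, ?_⟩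
  rw [TT_apply]
  exact (B_expand B x y).symm

theorem exists_solve {B : Br p} (hB : SLie p B) : ∃ κ₁ C₂ : ℝ, 0 < κ₁ ∧ κ₁ ≤ 1 ∧ 0 ≤ C₂ ∧
    ∀ x : Fin p → Fin p → ℝ, (∀ k, ‖x k - Pi.single k 1‖ ≤ κ₁) → ∀ w : Fin p → ℝ,
      ∃ t : Fin p × Fin p → ℝ, (∀ q, 0 ≤ t q ∧ t q ≤ C₂ * ‖w‖) ∧
        ∑ q, t q • B (x q.1) (x q.2) = w := by
  obtain ⟨β, hβ1, hβ, -⟩ := exists_beta B
  obtain ⟨R, hR⟩ := (TT B (fun k => Pi.single k (1 : ℝ))).exists_rightInverse_of_surjective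
    (LinearMap.range_eq_top.2 (TT_surj hB))
  set Rc : (Fin p → ℝ) →L[ℝ] (Fin p × Fin p → ℝ) := LinearMap.toContinuousLinearMap R with hRc
  have hRn : ∀ y, ‖R y‖ ≤ (1 + ‖Rc‖) * ‖y‖ := by
    intro y
    have : ‖Rc y‖ ≤ ‖Rc‖ * ‖y‖ := Rc.le_opNorm y
    have h2 : Rc y = R y := rfl
    rw [h2] at this
    nlinarith [norm_nonneg y]
  set C₀ : ℝ := 1 + ‖Rc‖ with hC₀
  have hC₀1 : 1 ≤ C₀ := by rw [hC₀]; linarith [norm_nonneg Rc]
  -- the constant
  set m : ℝ := (Fintype.card (Fin p × Fin p) : ℝ) with hm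
  have hm0 : 0 ≤ m := by rw [hm]; positivity
  set κ₁ : ℝ := 1 / (2 * (1 + m * (β * 3) * C₀)) with hκ₁
  have hden : 0 < 2 * (1 + m * (β * 3) * C₀) := by positivity
  have hκpos : 0 < κ₁ := by rw [hκ₁]; positivity
  have hκ1 : κ₁ ≤ 1 := by
    rw [hκ₁, div_le_one hden]
    nlinarith [mul_nonneg (mul_nonneg hm0 (by positivity : (0:ℝ) ≤ β * 3)) (by linarith : (0:ℝ) ≤ C₀)]
  have hκs : m * (β * 3 * κ₁) * C₀ ≤ 1 / 2 := by
    rw [hκ₁]
    rw [show m * (β * 3 * (1 / (2 * (1 + m * (β * 3) * C₀)))) * C₀ =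
      (m * (β * 3) * C₀) / (2 * (1 + m * (β * 3) * C₀)) by ring]
    rw [div_le_div_iff₀ hden (by norm_num)]
    nlinarith
  refine ⟨κ₁, 2 * (2 * C₀), hκpos, hκ1, by positivity, fun x hx w => ?_⟩
  -- closeness
  have hnx : ∀ k, ‖x k‖ ≤ 2 := by
    intro k
    have h1 : ‖(Pi.single k (1 : ℝ) : Fin p → ℝ)‖ ≤ 1 := by
      rw [Pi.norm_single]; simp
    calc ‖x k‖ = ‖(x k - Pi.single k 1) + Pi.single k 1‖ := by rw [sub_add_cancel]
      _ ≤ κ₁ + 1 := (norm_add_le _ _).trans (add_le_add (hx k) h1)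
      _ ≤ 2 := by linarith
  have hne : ∀ k, ‖(Pi.single k (1 : ℝ) : Fin p → ℝ)‖ ≤ 1 := by
    intro k; rw [Pi.norm_single]; simp
  have hclose : ∀ t : Fin p × Fin p → ℝ,
      ‖TT B x t - TT B (fun k => Pi.single k (1 : ℝ)) t‖ ≤ m * (β * 3 * κ₁) * ‖t‖ := by
    intro t
    rw [TT_apply, TT_apply, ← Finset.sum_sub_distrib]
    refine (norm_sum_le _ _).trans ?_
    have : ∀ q ∈ (Finset.univ : Finset (Fin p × Fin p)),
        ‖t q • B (x q.1) (x q.2) - t q • B (Pi.single q.1 (1 : ℝ)) (Pi.single q.2 (1 : ℝ))‖ ≤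
          (β * 3 * κ₁) * ‖t‖ := by
      intro q _
      rw [← smul_sub, norm_smul]
      have e1 : B (x q.1) (x q.2) - B (Pi.single q.1 (1 : ℝ)) (Pi.single q.2 (1 : ℝ)) =
          B (x q.1 - Pi.single q.1 1) (x q.2) +
            B (Pi.single q.1 (1 : ℝ)) (x q.2 - Pi.single q.2 1) := by
        simp only [map_sub, LinearMap.sub_apply]
        abel
      have e2 : ‖B (x q.1) (x q.2) - B (Pi.single q.1 (1 : ℝ)) (Pi.single q.2 (1 : ℝ))‖ ≤
          β * 3 * κ₁ := by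
        rw [e1]
        refine (norm_add_le _ _).trans ?_
        have h1 := hβ (x q.1 - Pi.single q.1 1) (x q.2)
        have h2 := hβ (Pi.single q.1 (1 : ℝ)) (x q.2 - Pi.single q.2 1)
        have h3 : β * ‖x q.1 - Pi.single q.1 1‖ * ‖x q.2‖ ≤ β * κ₁ * 2 := by
          have := hx q.1
          have := hnx q.2
          gcongr
        have h4 : β * ‖(Pi.single q.1 (1 : ℝ) : Fin p → ℝ)‖ * ‖x q.2 - Pi.single q.2 1‖ ≤
            β * 1 * κ₁ := by
          have := hx q.2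
          have := hne q.1
          gcongr
        linarith
      have e3 : ‖t q‖ ≤ ‖t‖ := norm_le_pi_norm t q
      calc ‖t q‖ * _ ≤ ‖t‖ * (β * 3 * κ₁) := by gcongr
        _ = _ := by ring
    refine (Finset.sum_le_sum this).trans ?_
    rw [Finset.sum_const, Finset.card_univ, nsmul_eq_mul, ← hm]
    linarith
  -- the map T_x R
  set F : (Fin p → ℝ) →ₗ[ℝ] (Fin p → ℝ) := TT B x ∘ₗ R with hF
  have hlow : ∀ y, ‖y‖ ≤ 2 * ‖F y‖ := by
    intro y
    have h1 : TT B (fun k => Pi.single k (1 : ℝ)) (R y) = y := by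
      have := LinearMap.congr_fun hR y
      simpa using this
    have h2 := hclose (R y)
    rw [h1] at h2
    have h3 : ‖TT B x (R y) - y‖ ≤ 1 / 2 * ‖y‖ := by
      refine h2.trans ?_
      calc m * (β * 3 * κ₁) * ‖R y‖ ≤ m * (β * 3 * κ₁) * (C₀ * ‖y‖) := by
            have := hRn y
            gcongr
        _ = (m * (β * 3 * κ₁) * C₀) * ‖y‖ := by ring
        _ ≤ 1 / 2 * ‖y‖ := mul_le_mul_of_nonneg_right hκs (norm_nonneg y)
    have h4 : ‖y‖ ≤ ‖TT B x (R y)‖ + ‖TT B x (R y) - y‖ := by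
      have := norm_sub_le (TT B x (R y)) (TT B x (R y) - y)
      simpa using this
    have h5 : F y = TT B x (R y) := rfl
    rw [h5]
    linarith
  have hinj : Function.Injective F := by
    rw [← LinearMap.ker_eq_bot, LinearMap.ker_eq_bot']
    intro y hy
    have := hlow y
    rw [hy, norm_zero, mul_zero] at this
    exact norm_le_zero_iff.1 this
  have hsurj : Function.Surjective F := LinearMap.injective_iff_surjective.1 hinj
  obtain ⟨y, hy⟩ := hsurj w
  set t := R y with ht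
  have htn : ‖t‖ ≤ C₀ * (2 * ‖w‖) := by
    refine (hRn y).trans ?_
    have := hlow y
    rw [hy] at this
    gcongr
  have hq : ∀ q, |t q| ≤ C₀ * (2 * ‖w‖) := fun q => (norm_le_pi_norm t q).trans htn
  refine ⟨fun q => max (t q) 0 + max (-t (q.2, q.1)) 0, fun q => ⟨by positivity, ?_⟩, ?_⟩
  · have h1 := (abs_le.1 (hq q)).2
    have h2 := (abs_le.1 (hq (q.2, q.1))).1
    have h0 : 0 ≤ C₀ * (2 * ‖w‖) := by positivity
    have h3 : max (t q) 0 ≤ C₀ * (2 * ‖w‖) := max_le h1 h0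
    have h4 : max (-t (q.2, q.1)) 0 ≤ C₀ * (2 * ‖w‖) := max_le (by linarith) h0
    simp only
    linarith
  · have e1 : ∑ q : Fin p × Fin p, (max (t q) 0 + max (-t (q.2, q.1)) 0) • B (x q.1) (x q.2) =
        ∑ q : Fin p × Fin p, max (t q) 0 • B (x q.1) (x q.2) +
          ∑ q : Fin p × Fin p, max (-t (q.2, q.1)) 0 • B (x q.1) (x q.2) := by
      rw [← Finset.sum_add_distrib]
      exact Finset.sum_congr rfl fun q _ => add_smul _ _ _
    have e2 : ∑ q : Fin p × Fin p, max (-t (q.2, q.1)) 0 • B (x q.1) (x q.2) =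
        ∑ q : Fin p × Fin p, -(max (-t q) 0 • B (x q.1) (x q.2)) := by
      rw [← Equiv.sum_comp (Equiv.prodComm (Fin p) (Fin p))]
      refine Finset.sum_congr rfl fun q _ => ?_
      simp only [Equiv.prodComm_apply, Prod.fst_swap, Prod.snd_swap, Prod.mk.eta]
      rw [hB.skew (x q.2) (x q.1), smul_neg]
    rw [e1, e2, ← Finset.sum_add_distrib]
    have e3 : ∀ q : Fin p × Fin p, max (t q) 0 • B (x q.1) (x q.2) +
        -(max (-t q) 0 • B (x q.1) (x q.2)) = t q • B (x q.1) (x q.2) := by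
      intro q
      rw [← sub_eq_add_neg, ← sub_smul]
      congr 1
      rcases le_total 0 (t q) with h | h
      · rw [max_eq_left h, max_eq_right (by linarith)]; ring
      · rw [max_eq_right h, max_eq_left (by linarith)]; ring
    rw [Finset.sum_congr rfl fun q _ => e3 q]
    exact hy

/-- Products of many elements close to the identity. -/
theorem prod_approx (A C₃ : ℝ) (hA : 0 ≤ A) (hC : 0 ≤ C₃) (n : ℕ) : ∃ c : ℝ, 0 ≤ c ∧
    ∀ ε : ℝ, 0 < ε → ε ≤ 1 → ∀ l : List (Endo p × Endo p), l.length ≤ n →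
      (∀ q ∈ l, ‖q.1 - 1 - ε ^ 2 • q.2‖ ≤ C₃ * ε ^ 3 ∧ ‖q.2‖ ≤ A) →
      ‖(l.map Prod.fst).prod - 1 - ε ^ 2 • (l.map Prod.snd).sum‖ ≤ c * ε ^ 3 ∧
        ‖(l.map Prod.snd).sum‖ ≤ n * A := by
  induction n with
  | zero =>
    refine ⟨0, le_rfl, fun ε _ _ l hl _ => ?_⟩
    have : l = [] := List.length_eq_zero_iff.1 (Nat.le_zero.1 hl)
    subst this
    simp
  | succ n ih =>
    obtain ⟨c, hc, H⟩ := ih
    refine ⟨C₃ + c + A * (n * A) + A * c + C₃ * (n * A) + C₃ * c, by positivity,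
      fun ε h0 h1 l hl hq => ?_⟩
    cases l with
    | nil =>
      constructor
      · simp only [List.map_nil, List.prod_nil, sub_self, List.sum_nil, smul_zero, norm_zero]
        positivity
      · simp only [List.map_nil, List.sum_nil, norm_zero]
        positivity
    | cons q l =>
      have hl' : l.length ≤ n := by simpa using hl
      obtain ⟨h2, h3⟩ := H ε h0 h1 l hl' fun q' hq' => hq q' (List.mem_cons_of_mem _ hq')
      obtain ⟨h4, h5⟩ := hq q (List.mem_cons_self)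
      simp only [List.map_cons, List.prod_cons, List.sum_cons]
      set Q := (l.map Prod.fst).prod with hQ
      set S := (l.map Prod.snd).sum with hS
      set r := q.1 - 1 - ε ^ 2 • q.2 with hr
      set r' := Q - 1 - ε ^ 2 • S with hr'
      have e1 : q.1 = 1 + ε ^ 2 • q.2 + r := by rw [hr]; abel
      have e2 : Q = 1 + ε ^ 2 • S + r' := by rw [hr']; abel
      have e3 : q.1 * Q - 1 - ε ^ 2 • (q.2 + S) = r + r' + ε ^ 4 • (q.2 * S) +
          ε ^ 2 • (q.2 * r') + ε ^ 2 • (r * S) + r * r' := by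
        rw [e1, e2]
        simp only [add_mul, mul_add, smul_mul_assoc, mul_smul_comm, smul_add, one_mul, mul_one,
          smul_smul]
        rw [show ε ^ 2 * ε ^ 2 = ε ^ 4 by ring]
        abel
      constructor
      · rw [e3]
        have hε4 : ε ^ 4 ≤ ε ^ 3 := pow_le_pow_of_le_one h0.le h1 (by norm_num)
        have hε5 : ε ^ 2 * ε ^ 3 ≤ ε ^ 3 := by
          have : ε ^ 2 ≤ 1 := pow_le_one₀ h0.le h1
          nlinarith [pow_pos h0 3]
        have hε6 : ε ^ 3 * ε ^ 3 ≤ ε ^ 3 := by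
          have : ε ^ 3 ≤ 1 := pow_le_one₀ h0.le h1
          nlinarith [pow_pos h0 3]
        have n1 : ‖ε ^ 4 • (q.2 * S)‖ ≤ A * (n * A) * ε ^ 3 := by
          rw [norm_smul, Real.norm_of_nonneg (by positivity)]
          calc ε ^ 4 * ‖q.2 * S‖ ≤ ε ^ 3 * (A * (n * A)) := by
                refine mul_le_mul hε4 ((norm_mul_le _ _).trans ?_) (norm_nonneg _) (by positivity)
                gcongr
            _ = _ := by ring
        have n2 : ‖ε ^ 2 • (q.2 * r')‖ ≤ A * c * ε ^ 3 := by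
          rw [norm_smul, Real.norm_of_nonneg (by positivity)]
          calc ε ^ 2 * ‖q.2 * r'‖ ≤ ε ^ 2 * (A * (c * ε ^ 3)) := by
                refine mul_le_mul_of_nonneg_left ((norm_mul_le _ _).trans ?_) (by positivity)
                gcongr
            _ = A * c * (ε ^ 2 * ε ^ 3) := by ring
            _ ≤ _ := by gcongr
        have n3 : ‖ε ^ 2 • (r * S)‖ ≤ C₃ * (n * A) * ε ^ 3 := by
          rw [norm_smul, Real.norm_of_nonneg (by positivity)]
          calc ε ^ 2 * ‖r * S‖ ≤ ε ^ 2 * ((C₃ * ε ^ 3) * (n * A)) := by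
                refine mul_le_mul_of_nonneg_left ((norm_mul_le _ _).trans ?_) (by positivity)
                gcongr
            _ = C₃ * (n * A) * (ε ^ 2 * ε ^ 3) := by ring
            _ ≤ _ := by gcongr
        have n4 : ‖r * r'‖ ≤ C₃ * c * ε ^ 3 := by
          calc ‖r * r'‖ ≤ (C₃ * ε ^ 3) * (c * ε ^ 3) := by
                refine (norm_mul_le _ _).trans ?_
                gcongr
            _ = C₃ * c * (ε ^ 3 * ε ^ 3) := by ring
            _ ≤ _ := by gcongr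
        calc ‖r + r' + ε ^ 4 • (q.2 * S) + ε ^ 2 • (q.2 * r') + ε ^ 2 • (r * S) + r * r'‖
            ≤ ‖r‖ + ‖r'‖ + ‖ε ^ 4 • (q.2 * S)‖ + ‖ε ^ 2 • (q.2 * r')‖ + ‖ε ^ 2 • (r * S)‖ +
              ‖r * r'‖ := by
              refine (norm_add_le _ _).trans (add_le_add ?_ le_rfl)
              refine (norm_add_le _ _).trans (add_le_add ?_ le_rfl)
              refine (norm_add_le _ _).trans (add_le_add ?_ le_rfl)
              refine (norm_add_le _ _).trans (add_le_add ?_ le_rfl)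
              exact norm_add_le _ _
          _ ≤ C₃ * ε ^ 3 + c * ε ^ 3 + A * (n * A) * ε ^ 3 + A * c * ε ^ 3 +
              C₃ * (n * A) * ε ^ 3 + C₃ * c * ε ^ 3 := by
              gcongr
          _ = _ := by ring
      · refine (norm_add_le _ _).trans ?_
        push_cast
        linarith

/-- The commutator estimate. -/
theorem comm_approx (B : Br p) (hjac : ∀ x y z, B x (B y z) = B (B x y) z + B y (B x z))
    (β : ℝ) (hβ1 : 1 ≤ β) (hβ : ∀ x, ‖adB B x‖ ≤ β * ‖x‖) (D : ℝ) (hD : 0 ≤ D) :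
    ∃ C₃ η : ℝ, 0 ≤ C₃ ∧ 0 < η ∧ η ≤ 1 ∧ ∀ ε : ℝ, 0 < ε → ε ≤ η →
      ∀ G G' H H' : Endo p, G * G' = 1 → H * H' = 1 →
      ∀ x y : Fin p → ℝ, ‖x‖ ≤ 2 → ‖y‖ ≤ 2 →
      ‖G - 1 - ε • adB B x‖ ≤ D * ε ^ 2 → ‖H - 1 - ε • adB B y‖ ≤ D * ε ^ 2 →
      ‖G * H * G' * H' - 1 - ε ^ 2 • adB B (B x y)‖ ≤ C₃ * ε ^ 3 := by
  refine ⟨(4 * (β * D) + 4 * (β * D) + 2 * D ^ 2) * 4 + 8 * β ^ 2 * (6 * (2 * β + D)),
    1 / (2 * (2 * β + D) + 1), by positivity, by positivity, ?_, ?_⟩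
  · rw [div_le_one (by positivity)]
    nlinarith
  intro ε h0 hε G G' H H' hG hH x y hx hy h1 h2
  have hden : 0 < 2 * (2 * β + D) + 1 := by positivity
  have hε' : ε * (2 * (2 * β + D) + 1) ≤ 1 := by
    rwa [le_div_iff₀ hden] at hε
  have hε1 : ε ≤ 1 := by nlinarith
  have hsm : (2 * β + D) * ε ≤ 1 / 2 := by nlinarith
  have hone : ‖(1 : Endo p)‖ ≤ 1 := ContinuousLinearMap.norm_id_le
  set a := adB B x with ha
  set b := adB B y with hb
  set r := G - 1 - ε • a with hr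
  set s := H - 1 - ε • b with hs
  have hna : ‖a‖ ≤ 2 * β := by
    refine (hβ x).trans ?_
    nlinarith
  have hnb : ‖b‖ ≤ 2 * β := by
    refine (hβ y).trans ?_
    nlinarith
  have hc : adB B (B x y) = a * b - b * a := by
    ext1 z
    simp only [ha, hb, sub_apply, mul_apply_eq_comp, adB_apply]
    rw [hjac x y z]
    abel
  have hnc : ‖a * b - b * a‖ ≤ 8 * β ^ 2 := by
    have e1 : ‖a * b‖ ≤ 2 * β * (2 * β) := (norm_mul_le _ _).trans (by gcongr)
    have e2 : ‖b * a‖ ≤ 2 * β * (2 * β) := (norm_mul_le _ _).trans (by gcongr)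
    have := norm_sub_le (a * b) (b * a)
    nlinarith
  have eG : G = 1 + ε • a + r := by rw [hr]; abel
  have eH : H = 1 + ε • b + s := by rw [hs]; abel
  have eM : G - 1 = ε • a + r := by rw [hr]; abel
  have eN : H - 1 = ε • b + s := by rw [hs]; abel
  have hM : ‖G - 1‖ ≤ (2 * β + D) * ε := by
    rw [eM]
    refine (norm_add_le _ _).trans ?_
    rw [norm_smul, Real.norm_of_nonneg h0.le]
    have : D * ε ^ 2 ≤ D * ε := by
      have : ε ^ 2 ≤ ε := by nlinarith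
      gcongr
    nlinarith
  have hN : ‖H - 1‖ ≤ (2 * β + D) * ε := by
    rw [eN]
    refine (norm_add_le _ _).trans ?_
    rw [norm_smul, Real.norm_of_nonneg h0.le]
    have : D * ε ^ 2 ≤ D * ε := by
      have : ε ^ 2 ≤ ε := by nlinarith
      gcongr
    nlinarith
  have inv : ∀ K K' : Endo p, K * K' = 1 → ‖K - 1‖ ≤ (2 * β + D) * ε →
      ‖K'‖ ≤ 2 ∧ ‖K' - 1‖ ≤ 2 * ((2 * β + D) * ε) := by
    intro K K' hK hn
    have e1 : K' - 1 = -((K - 1) * K') := by
      rw [sub_mul, hK, one_mul]; abel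
    have e2 : ‖K' - 1‖ ≤ (2 * β + D) * ε * ‖K'‖ := by
      rw [e1, norm_neg]
      exact (norm_mul_le _ _).trans (by gcongr)
    have e3 : ‖K'‖ ≤ ‖K' - 1‖ + ‖(1 : Endo p)‖ := by
      have := norm_add_le (K' - 1) 1
      rwa [sub_add_cancel] at this
    have e4 : (2 * β + D) * ε * ‖K'‖ ≤ 1 / 2 * ‖K'‖ := by gcongr
    have e5 : ‖K'‖ ≤ 2 := by linarith
    refine ⟨e5, e2.trans ?_⟩
    have : 0 ≤ (2 * β + D) * ε := by positivity
    nlinarith
  obtain ⟨g1, g2⟩ := inv G G' hG hM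
  obtain ⟨k1, k2⟩ := inv H H' hH hN
  have hGH : ‖G' * H' - 1‖ ≤ 6 * ((2 * β + D) * ε) := by
    have e1 : G' * H' - 1 = (G' - 1) * H' + (H' - 1) := by
      rw [sub_mul, one_mul]; abel
    rw [e1]
    refine (norm_add_le _ _).trans ?_
    have e2 : ‖(G' - 1) * H'‖ ≤ 2 * ((2 * β + D) * ε) * 2 :=
      (norm_mul_le _ _).trans (by gcongr)
    linarith
  have hGH' : ‖G' * H'‖ ≤ 4 := by
    have : ‖G' * H'‖ ≤ 2 * 2 := (norm_mul_le _ _).trans (by gcongr)
    linarith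
  have hcomm : G * H - H * G - ε ^ 2 • (a * b - b * a) =
      ε • (a * s - s * a) + ε • (r * b - b * r) + (r * s - s * r) := by
    rw [eG, eH]
    simp only [add_mul, mul_add, smul_mul_assoc, mul_smul_comm, smul_add, one_mul, mul_one,
      smul_smul, smul_sub]
    rw [show ε * ε = ε ^ 2 by ring]
    abel
  have hcn : ‖G * H - H * G - ε ^ 2 • (a * b - b * a)‖ ≤
      (4 * (β * D) + 4 * (β * D) + 2 * D ^ 2) * ε ^ 3 := by
    rw [hcomm]
    have n1 : ‖ε • (a * s - s * a)‖ ≤ 4 * (β * D) * ε ^ 3 := by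
      rw [norm_smul, Real.norm_of_nonneg h0.le]
      have e1 : ‖a * s‖ ≤ 2 * β * (D * ε ^ 2) := (norm_mul_le _ _).trans (by gcongr)
      have e2 : ‖s * a‖ ≤ (D * ε ^ 2) * (2 * β) := (norm_mul_le _ _).trans (by gcongr)
      have e3 := norm_sub_le (a * s) (s * a)
      calc ε * ‖a * s - s * a‖ ≤ ε * (2 * β * (D * ε ^ 2) + (D * ε ^ 2) * (2 * β)) := by
            gcongr
            linarith
        _ = _ := by ring
    have n2 : ‖ε • (r * b - b * r)‖ ≤ 4 * (β * D) * ε ^ 3 := by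
      rw [norm_smul, Real.norm_of_nonneg h0.le]
      have e1 : ‖b * r‖ ≤ 2 * β * (D * ε ^ 2) := (norm_mul_le _ _).trans (by gcongr)
      have e2 : ‖r * b‖ ≤ (D * ε ^ 2) * (2 * β) := (norm_mul_le _ _).trans (by gcongr)
      have e3 := norm_sub_le (r * b) (b * r)
      calc ε * ‖r * b - b * r‖ ≤ ε * (2 * β * (D * ε ^ 2) + (D * ε ^ 2) * (2 * β)) := by
            gcongr
            linarith
        _ = _ := by ring
    have n3 : ‖r * s - s * r‖ ≤ 2 * D ^ 2 * ε ^ 3 := by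
      have e1 : ‖r * s‖ ≤ (D * ε ^ 2) * (D * ε ^ 2) := (norm_mul_le _ _).trans (by gcongr)
      have e2 : ‖s * r‖ ≤ (D * ε ^ 2) * (D * ε ^ 2) := (norm_mul_le _ _).trans (by gcongr)
      have e3 := norm_sub_le (r * s) (s * r)
      have e4 : ε ^ 4 ≤ ε ^ 3 := pow_le_pow_of_le_one h0.le hε1 (by norm_num)
      have e5 : (D * ε ^ 2) * (D * ε ^ 2) ≤ D ^ 2 * ε ^ 3 := by
        calc (D * ε ^ 2) * (D * ε ^ 2) = D ^ 2 * ε ^ 4 := by ring
          _ ≤ _ := by gcongr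
      linarith
    calc _ ≤ ‖ε • (a * s - s * a)‖ + ‖ε • (r * b - b * r)‖ + ‖r * s - s * r‖ := by
          refine (norm_add_le _ _).trans (add_le_add ?_ le_rfl)
          exact norm_add_le _ _
      _ ≤ 4 * (β * D) * ε ^ 3 + 4 * (β * D) * ε ^ 3 + 2 * D ^ 2 * ε ^ 3 := by gcongr
      _ = _ := by ring
  have hid : H * G * (G' * H') = 1 := by
    rw [mul_assoc, ← mul_assoc G, hG, one_mul, hH]
  have hfin : G * H * G' * H' - 1 - ε ^ 2 • adB B (B x y) =
      (G * H - H * G - ε ^ 2 • (a * b - b * a)) * (G' * H') +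
        ε ^ 2 • ((a * b - b * a) * (G' * H' - 1)) := by
    rw [hc]
    have e1 : (G * H - H * G - ε ^ 2 • (a * b - b * a)) * (G' * H') =
        G * H * G' * H' - 1 - ε ^ 2 • ((a * b - b * a) * (G' * H')) := by
      rw [sub_mul, sub_mul, hid, smul_mul_assoc]
      simp only [mul_assoc]
    rw [e1, mul_sub (a * b - b * a), mul_one,
      smul_sub (ε ^ 2) ((a * b - b * a) * (G' * H')) (a * b - b * a)]
    exact (sub_add_sub_cancel (G * H * G' * H' - 1) (ε ^ 2 • ((a * b - b * a) * (G' * H')))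
      (ε ^ 2 • (a * b - b * a))).symm
  rw [hfin]
  refine (norm_add_le _ _).trans ?_
  have f1 : ‖(G * H - H * G - ε ^ 2 • (a * b - b * a)) * (G' * H')‖ ≤
      (4 * (β * D) + 4 * (β * D) + 2 * D ^ 2) * ε ^ 3 * 4 :=
    (norm_mul_le _ _).trans (by gcongr)
  have f2 : ‖ε ^ 2 • ((a * b - b * a) * (G' * H' - 1))‖ ≤
      ε ^ 2 * (8 * β ^ 2 * (6 * ((2 * β + D) * ε))) := by
    rw [norm_smul, Real.norm_of_nonneg (by positivity)]
    refine mul_le_mul_of_nonneg_left ((norm_mul_le _ _).trans ?_) (by positivity)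
    gcongr
  refine (add_le_add f1 f2).trans (le_of_eq ?_)
  ring

/-- The list of pairs with multiplicities `n`. -/
noncomputable def mkList (n : Fin p × Fin p → ℕ) : List (Fin p × Fin p) :=
  (Finset.univ : Finset (Fin p × Fin p)).toList.flatMap fun q => List.replicate (n q) q

theorem mkList_length (n : Fin p × Fin p → ℕ) : (mkList n).length = ∑ q, n q := by
  rw [mkList, List.length_flatMap]
  simp only [List.length_replicate]
  exact Finset.sum_map_toList _ _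

theorem mkList_sum (n : Fin p × Fin p → ℕ) (f : Fin p × Fin p → (Fin p → ℝ)) :
    ((mkList n).map f).sum = ∑ q, (n q : ℝ) • f q := by
  have h : ∀ L : List (Fin p × Fin p),
      ((L.flatMap fun q => List.replicate (n q) q).map f).sum =
        (L.map fun q => (n q : ℝ) • f q).sum := by
    intro L
    induction L with
    | nil => simp
    | cons q L ih =>
      rw [List.flatMap_cons, List.map_append, List.sum_append, ih, List.map_cons, List.sum_cons,
        List.map_replicate, List.sum_replicate]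
      simp [Nat.cast_smul_eq_nsmul]
  rw [mkList, h]
  exact Finset.sum_map_toList _ _

theorem rec' (hR : S_RIG) : S_REC := by
  intro p B hB
  obtain ⟨C, hC0, hC⟩ := hR p B hB
  obtain ⟨β, hβ1, hββ, hβ⟩ := exists_beta B
  obtain ⟨C₁, hC₁, hC₁'⟩ := exists_C1 hB
  obtain ⟨κ₁, C₂, hκ₁, hκ₁1, hC₂, hsolve⟩ := exists_solve hB
  have : Nonempty (Fin p) := ⟨⟨0, hB.pos⟩⟩
  have he : ∀ k, ‖(Pi.single k (1 : ℝ) : Fin p → ℝ)‖ = 1 := by
    intro k; rw [Pi.norm_single]; simp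
  -- the minimal norm
  have hm0 : ∀ k : Fin p, 1 / C₁ ≤ ‖adB B (Pi.single k (1 : ℝ))‖ := by
    intro k
    have := hC₁' (Pi.single k 1)
    rw [he k] at this
    rw [div_le_iff₀ hC₁]
    linarith
  -- κ
  set κ : ℝ := min (κ₁ / (2 * C₁)) (1 / (4 * C₁)) with hκ
  have hκ0 : 0 < κ := by rw [hκ]; positivity
  have hκa : C₁ * κ ≤ κ₁ / 2 := by
    have : κ ≤ κ₁ / (2 * C₁) := min_le_left _ _
    calc C₁ * κ ≤ C₁ * (κ₁ / (2 * C₁)) := by gcongr
      _ = κ₁ / 2 := by field_simp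
  have hκb : κ ≤ 1 / (4 * C₁) := min_le_right _ _
  have hκm : ∀ k : Fin p, 2 * κ < ‖adB B (Pi.single k (1 : ℝ))‖ := by
    intro k
    refine lt_of_lt_of_le ?_ (hm0 k)
    calc 2 * κ ≤ 2 * (1 / (4 * C₁)) := by gcongr
      _ = (1 / C₁) / 2 := by field_simp; norm_num
      _ < 1 / C₁ := half_lt_self (by positivity)
  have hκβ : κ ≤ β := by
    have h1 : ‖adB B (Pi.single ⟨0, hB.pos⟩ (1 : ℝ))‖ ≤ β := by
      have := hβ (Pi.single ⟨0, hB.pos⟩ (1 : ℝ))
      rwa [he, mul_one] at this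
    have h2 := hκm ⟨0, hB.pos⟩
    linarith
  -- second order constant
  set D : ℝ := C * (2 * β) ^ 2 with hD
  have hD0 : 0 ≤ D := by rw [hD]; positivity
  obtain ⟨C₃, η, hC₃, hη, hη1, hcomm⟩ := comm_approx B hB.jac β hβ1 hβ D hD0
  set m : ℝ := (Fintype.card (Fin p × Fin p) : ℝ) with hm
  have hm0' : 0 ≤ m := by rw [hm]; positivity
  set E : ℝ := β * (m * (β * 2 * 2)) with hE
  have hE0 : 0 ≤ E := by rw [hE]; positivity
  set K₁ : ℝ := max 1 (2 * E / κ) with hK₁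
  have hK1 : 1 ≤ K₁ := le_max_left _ _
  have hKE : E ≤ κ * K₁ / 2 := by
    have : 2 * E / κ ≤ K₁ := le_max_right _ _
    rw [div_le_iff₀ hκ0] at this
    linarith
  set N : ℕ := Fintype.card (Fin p × Fin p) * ⌈C₂ * K₁⌉₊ with hN
  obtain ⟨c, hc0, hprod⟩ := prod_approx (p := p) (β * (β * 2 * 2)) C₃ (by positivity) hC₃ N
  set ε₀ : ℝ := min (min η (1 / (2 * K₁))) (min (κ₁ / (2 * (C₁ * D + 1))) (κ * K₁ / (2 * (c + 1))))
    with hε₀
  have hε₀pos : 0 < ε₀ := by rw [hε₀]; positivity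
  refine ⟨κ, ε₀, K₁, N, hκ0, hε₀pos, hK1, ?_, hκm, ?_⟩
  · have : ε₀ ≤ 1 / (2 * K₁) := (min_le_left _ _).trans (min_le_right _ _)
    calc K₁ * ε₀ ≤ K₁ * (1 / (2 * K₁)) := by gcongr
      _ = 1 / 2 := by field_simp
  intro Γ _ P hP ε hε0 hεε₀ γ hγ
  have hεη : ε ≤ η := hεε₀.trans ((min_le_left _ _).trans (min_le_left _ _))
  have hε1 : ε ≤ 1 := hεη.trans hη1
  have hεD : C₁ * D * ε ≤ κ₁ / 2 := by
    have h1 : ε ≤ κ₁ / (2 * (C₁ * D + 1)) :=
      hεε₀.trans ((min_le_right _ _).trans (min_le_left _ _))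
    rw [le_div_iff₀ (by positivity)] at h1
    nlinarith
  have hεc : c * ε ≤ κ * K₁ / 2 := by
    have h1 : ε ≤ κ * K₁ / (2 * (c + 1)) :=
      hεε₀.trans ((min_le_right _ _).trans (min_le_right _ _))
    rw [le_div_iff₀ (by positivity)] at h1
    nlinarith
  -- rigidity
  have hu : ∀ k, ∃ x : Fin p → ℝ, ‖x - Pi.single k 1‖ ≤ κ₁ ∧
      ‖P (γ k) - 1 - ε • adB B x‖ ≤ D * ε ^ 2 := by
    intro k
    obtain ⟨u, hu⟩ := hC (P (γ k)) (hP (γ k))
    have h1 : ‖P (γ k) - 1‖ ≤ 2 * β * ε := by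
      have e1 : ‖P (γ k) - 1‖ ≤ ‖P (γ k) - 1 - ε • adB B (Pi.single k (1 : ℝ))‖ +
          ‖ε • adB B (Pi.single k (1 : ℝ))‖ := by
        have := norm_add_le (P (γ k) - 1 - ε • adB B (Pi.single k (1 : ℝ)))
          (ε • adB B (Pi.single k (1 : ℝ)))
        rwa [sub_add_cancel] at this
      rw [norm_smul, Real.norm_of_nonneg hε0.le] at e1
      have e2 := hβ (Pi.single k (1 : ℝ))
      rw [he k, mul_one] at e2
      have e3 := hγ k
      have e4 : κ * ε ≤ β * ε := by gcongr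
      have e5 : ε * ‖adB B (Pi.single k (1 : ℝ))‖ ≤ ε * β := by gcongr
      linarith
    have h2 : ‖P (γ k) - 1 - adB B u‖ ≤ D * ε ^ 2 := by
      refine hu.trans ?_
      calc C * ‖P (γ k) - 1‖ ^ 2 ≤ C * (2 * β * ε) ^ 2 := by gcongr
        _ = D * ε ^ 2 := by rw [hD]; ring
    refine ⟨ε⁻¹ • u, ?_, ?_⟩
    · have e1 : ε • (ε⁻¹ • u - Pi.single k (1 : ℝ)) = u - ε • Pi.single k (1 : ℝ) := by
        rw [smul_sub, smul_smul, mul_inv_cancel₀ hε0.ne', one_smul]
      have e2 : adB B (u - ε • Pi.single k (1 : ℝ)) =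
          (P (γ k) - 1 - ε • adB B (Pi.single k (1 : ℝ))) - (P (γ k) - 1 - adB B u) := by
        rw [← adL_apply, map_sub, map_smul, adL_apply, adL_apply]
        abel
      have e3 : ‖adB B (u - ε • Pi.single k (1 : ℝ))‖ ≤ κ * ε + D * ε ^ 2 := by
        rw [e2]
        exact (norm_sub_le _ _).trans (add_le_add (hγ k) h2)
      have e4 := hC₁' (u - ε • Pi.single k (1 : ℝ))
      rw [← e1, norm_smul, Real.norm_of_nonneg hε0.le, e1] at e4
      have e5 : ε * ‖ε⁻¹ • u - Pi.single k (1 : ℝ)‖ ≤ ε * κ₁ := by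
        refine e4.trans ?_
        calc C₁ * ‖adB B (u - ε • Pi.single k (1 : ℝ))‖ ≤ C₁ * (κ * ε + D * ε ^ 2) := by gcongr
          _ = ε * (C₁ * κ + C₁ * D * ε) := by ring
          _ ≤ ε * κ₁ := by
            gcongr
            linarith
      exact le_of_mul_le_mul_left e5 hε0
    · have e1 : ε • adB B (ε⁻¹ • u) = adB B u := by
        rw [← adL_apply, map_smul, smul_smul, mul_inv_cancel₀ hε0.ne', one_smul, adL_apply]
      rw [e1]
      exact h2
  choose x hx1 hx2 using hu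
  have hxn : ∀ k, ‖x k‖ ≤ 2 := by
    intro k
    have h1 := norm_add_le (x k - Pi.single k (1 : ℝ)) (Pi.single k (1 : ℝ))
    rw [sub_add_cancel, he k] at h1
    linarith [hx1 k]
  have hxB : ∀ i j, ‖B (x i) (x j)‖ ≤ β * 2 * 2 := by
    intro i j
    refine (hββ _ _).trans ?_
    have := hxn i
    have := hxn j
    gcongr
  -- commutators
  have hδ : ∀ q : Fin p × Fin p,
      ‖P (γ q.1 * γ q.2 * (γ q.1)⁻¹ * (γ q.2)⁻¹) - 1 - ε ^ 2 • adB B (B (x q.1) (x q.2))‖ ≤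
        C₃ * ε ^ 3 := by
    intro q
    rw [map_mul, map_mul, map_mul]
    refine hcomm ε hε0 hεη _ _ _ _ ?_ ?_ _ _ (hxn _) (hxn _) (hx2 _) (hx2 _)
    · rw [← map_mul, mul_inv_cancel, map_one]
    · rw [← map_mul, mul_inv_cancel, map_one]
  have key : ∀ k : Fin p, ∃ g ∈ Words N γ,
      ‖P g - 1 - (K₁ * ε ^ 2) • adB B (Pi.single k 1)‖ ≤ κ * (K₁ * ε ^ 2) := by
    intro k
    obtain ⟨t, ht, hts⟩ := hsolve x hx1 (K₁ • Pi.single k (1 : ℝ))
    have hKn : ‖K₁ • (Pi.single k (1 : ℝ) : Fin p → ℝ)‖ = K₁ := by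
      rw [norm_smul, he k, mul_one, Real.norm_of_nonneg (by linarith)]
    rw [hKn] at ht
    set n : Fin p × Fin p → ℕ := fun q => ⌊t q⌋₊ with hn
    have hlen : (mkList n).length ≤ N := by
      rw [mkList_length, hN]
      calc ∑ q, n q ≤ ∑ _q : Fin p × Fin p, ⌈C₂ * K₁⌉₊ := by
            refine Finset.sum_le_sum fun q _ => ?_
            exact (Nat.floor_le_floor (ht q).2).trans (Nat.floor_le_ceil _)
        _ = _ := by rw [Finset.sum_const, Finset.card_univ, smul_eq_mul]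
    refine ⟨_, ⟨mkList n, hlen, rfl⟩, ?_⟩
    have h1 := hprod ε hε0 hε1 ((mkList n).map fun q =>
      (P (γ q.1 * γ q.2 * (γ q.1)⁻¹ * (γ q.2)⁻¹), adB B (B (x q.1) (x q.2))))
      (by rw [List.length_map]; exact hlen) (by
        intro q' hq'
        rw [List.mem_map] at hq'
        obtain ⟨q, -, rfl⟩ := hq'
        refine ⟨hδ q, (hβ _).trans ?_⟩
        have := hxB q.1 q.2
        gcongr)
    rw [List.map_map, List.map_map] at h1
    have e1 : (List.map (Prod.fst ∘ fun q : Fin p × Fin p =>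
        (P (γ q.1 * γ q.2 * (γ q.1)⁻¹ * (γ q.2)⁻¹), adB B (B (x q.1) (x q.2)))) (mkList n)).prod =
        P ((mkList n).map fun q => γ q.1 * γ q.2 * (γ q.1)⁻¹ * (γ q.2)⁻¹).prod := by
      rw [map_list_prod, List.map_map]
      rfl
    have e2 : (List.map (Prod.snd ∘ fun q : Fin p × Fin p =>
        (P (γ q.1 * γ q.2 * (γ q.1)⁻¹ * (γ q.2)⁻¹), adB B (B (x q.1) (x q.2)))) (mkList n)).sum =
        adB B (∑ q, (n q : ℝ) • B (x q.1) (x q.2)) := by
      rw [← mkList_sum n fun q => B (x q.1) (x q.2), ← adL_apply, map_list_sum, List.map_map]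
      rfl
    rw [e1, e2] at h1
    have h2 := h1.1
    set z := ∑ q, (n q : ℝ) • B (x q.1) (x q.2) with hz
    have h3 : ‖z - K₁ • Pi.single k (1 : ℝ)‖ ≤ m * (β * 2 * 2) := by
      rw [← hts, hz, ← Finset.sum_sub_distrib]
      refine (norm_sum_le _ _).trans ?_
      rw [hm, ← nsmul_eq_mul, ← Finset.card_univ, ← Finset.sum_const]
      refine Finset.sum_le_sum fun q _ => ?_
      rw [← sub_smul, norm_smul]
      have f1 : ‖(n q : ℝ) - t q‖ ≤ 1 := by
        rw [Real.norm_eq_abs, abs_le]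
        have a1 := Nat.floor_le (ht q).1
        have a2 := Nat.lt_floor_add_one (t q)
        constructor
        · have : (n q : ℝ) = (⌊t q⌋₊ : ℝ) := rfl
          linarith
        · have : (n q : ℝ) = (⌊t q⌋₊ : ℝ) := rfl
          linarith
      calc ‖(n q : ℝ) - t q‖ * ‖B (x q.1) (x q.2)‖ ≤ 1 * (β * 2 * 2) := by
            have := hxB q.1 q.2
            gcongr
        _ = _ := one_mul _
    set g := ((mkList n).map fun q => γ q.1 * γ q.2 * (γ q.1)⁻¹ * (γ q.2)⁻¹).prod with hg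
    have h4 : P g - 1 - (K₁ * ε ^ 2) • adB B (Pi.single k (1 : ℝ)) =
        (P g - 1 - ε ^ 2 • adB B z) + ε ^ 2 • adB B (z - K₁ • Pi.single k (1 : ℝ)) := by
      have : adB B (z - K₁ • Pi.single k (1 : ℝ)) = adB B z - K₁ • adB B (Pi.single k (1 : ℝ)) := by
        rw [← adL_apply, map_sub, map_smul, adL_apply, adL_apply]
      rw [this, smul_sub, smul_smul, mul_comm K₁]
      abel
    rw [h4]
    refine (norm_add_le _ _).trans ?_
    rw [norm_smul, Real.norm_of_nonneg (by positivity : (0 : ℝ) ≤ ε ^ 2)]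
    have h5 : ‖adB B (z - K₁ • Pi.single k (1 : ℝ))‖ ≤ E := by
      refine (hβ _).trans ?_
      rw [hE]
      gcongr
    calc ‖P g - 1 - ε ^ 2 • adB B z‖ + ε ^ 2 * ‖adB B (z - K₁ • Pi.single k (1 : ℝ))‖
        ≤ c * ε ^ 3 + ε ^ 2 * E := by gcongr
      _ = ε ^ 2 * (c * ε + E) := by ring
      _ ≤ ε ^ 2 * (κ * K₁) := by
        gcongr
        linarith
      _ = κ * (K₁ * ε ^ 2) := by ring
  choose g hg1 hg2 using key
  exact ⟨g, hg1, hg2⟩

end Pool.Agent.Helper90.Lin
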